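import Pool.Agent.N513.CE.Stm

/-!
# Project CE, task ENVR (helper221 for helper513): assembly of the big group
-/

set_option autoImplicit false

namespace Pool.Agent.N221.CE

open Pool.Agent.N513.CE
open Pool.Agent.N44.NS (E3 el)
open Pool.Agent.W661.RC (HasT)

noncomputable section

/-- property (T) passes to quotients -/
theorem hasT_of_surj {X Y : Type} [Group X] [Group Y] (f : X →* Y) (hf : Function.Surjective f)
    (h : HasT X) : HasT Y := by
  classical
  intro H _ _ _ π hπ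
  obtain ⟨v, hv, h2⟩ := h H (π.comp f) (fun T ε hε => by
    obtain ⟨v, h1, h2⟩ := hπ (T.image f) ε hε
    exact ⟨v, h1, fun g hg => h2 (f g) (Finset.mem_image_of_mem _ hg)⟩)
  refine ⟨v, hv, fun g => ?_⟩
  obtain ⟨x, rfl⟩ := hf g
  exact h2 x

/-! ### The evaluation -/

section ev

variable {D L : Type} [Group D] [AddCommGroup L]

/-- the evaluation of the group ring at `w` -/
def ev (ρ : D →* AddMonoid.End L) (w : L) : MonoidAlgebra ℤ D →+ L :=
  (Finsupp.liftAddHom fun d => zmultiplesHom L (ρ d w)).comp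
    (MonoidAlgebra.coeffAddEquiv (R := ℤ) (M := D)).toAddMonoidHom

theorem ev_single (ρ : D →* AddMonoid.End L) (w : L) (d : D) (n : ℤ) :
    ev ρ w (MonoidAlgebra.single d n) = n • ρ d w := by
  show (Finsupp.liftAddHom fun d => zmultiplesHom L (ρ d w)) (Finsupp.single d n) = _
  rw [Finsupp.liftAddHom_apply_single]
  rfl

theorem ev_of (ρ : D →* AddMonoid.End L) (w : L) (d : D) (x : MonoidAlgebra ℤ D) :
    ev ρ w (MonoidAlgebra.of ℤ D d * x) = ρ d (ev ρ w x) := by
  induction x using MonoidAlgebra.induction_linear with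
  | zero => rw [mul_zero, map_zero, map_zero]
  | add x y hx hy => rw [mul_add, map_add, map_add, map_add, hx, hy]
  | single e n =>
    rw [MonoidAlgebra.of_apply, MonoidAlgebra.single_mul_single, ev_single, ev_single, one_mul,
      map_mul, map_zsmul]
    rfl

theorem ev_surj (ρ : D →* AddMonoid.End L) (w : L)
    (h : AddSubgroup.closure (Set.range fun d => ρ d w) = ⊤) : Function.Surjective (ev ρ w) := by
  intro l
  have hl : l ∈ AddSubgroup.closure (Set.range fun d => ρ d w) := by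
    rw [h]; exact AddSubgroup.mem_top l
  have hle : AddSubgroup.closure (Set.range fun d => ρ d w) ≤ (ev ρ w).range := by
    rw [AddSubgroup.closure_le]
    rintro _ ⟨d, rfl⟩
    exact ⟨MonoidAlgebra.single d 1, by rw [ev_single, one_smul]⟩
  exact hle hl

/-- the subgroup `{0, c}` -/
def pr (c : L) (hc : c + c = 0) : AddSubgroup L where
  carrier := {l | l = 0 ∨ l = c}
  zero_mem' := Or.inl rfl
  add_mem' := by
    rintro a b (rfl | rfl) (rfl | rfl)
    · exact Or.inl (add_zero 0)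
    · exact Or.inr (zero_add _)
    · exact Or.inr (add_zero _)
    · exact Or.inl hc
  neg_mem' := by
    rintro a (rfl | rfl)
    · exact Or.inl neg_zero
    · exact Or.inr (neg_eq_of_add_eq_zero_left hc)

end ev

/-! ### The scalar matrices -/

section sW

variable (hD : S_DIA) (q : ℕ) {D : Type} [Group D]

/-- the scalar matrix as an element of the big group -/
def sW (W : MonoidAlgebra ℤ D) : PH q ℤ D :=
  SemidirectProduct.inl ⟨dia (ZMod q) (Hall.z W), hD q ℤ D W⟩

theorem sW_add (W W' : MonoidAlgebra ℤ D) : sW hD q (W + W') = sW hD q W * sW hD q W' := by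
  unfold sW
  rw [← map_mul]
  congr 1
  apply Subtype.ext
  show dia (ZMod q) (Hall.z (W + W')) = dia (ZMod q) (Hall.z W) * dia (ZMod q) (Hall.z W')
  rw [Hall.z_mul, map_mul]

theorem sW_zero : sW hD q (0 : MonoidAlgebra ℤ D) = 1 := by
  unfold sW
  rw [← map_one (SemidirectProduct.inl :
    _ →* PH q ℤ D)]
  congr 1
  apply Subtype.ext
  show dia (ZMod q) (Hall.z (0 : MonoidAlgebra ℤ D)) = 1
  rw [Hall.z_zero, map_one]

theorem dia_inj (hq : 1 < q) : Function.Injective (dia (ZMod q) (X := Hall ℤ D)) := by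
  have : Fact (1 < q) := ⟨hq⟩
  intro x y h
  have h1 := congrArg (fun M : (Matrix (Fin 3) (Fin 3) (AA q ℤ D))ˣ => M.1 0 0) h
  have h2 : MonoidAlgebra.of (ZMod q) (Hall ℤ D) x = MonoidAlgebra.of (ZMod q) (Hall ℤ D) y := by
    have e : ∀ x, (dia (ZMod q) (X := Hall ℤ D) x).1 0 0 = MonoidAlgebra.of (ZMod q) (Hall ℤ D) x :=
      fun x => by
        rw [dia_val, Matrix.scalar_apply, Matrix.diagonal_apply_eq]
    rw [← e x, ← e y]
    exact h1
  exact MonoidAlgebra.of_injective h2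

theorem mem_scP (hq : 1 < q) (I : AddSubgroup (MonoidAlgebra ℤ D)) (W : MonoidAlgebra ℤ D) :
    sW hD q W ∈ scP q I ↔ W ∈ I := by
  constructor
  · rintro ⟨W', hW', h1, _⟩
    have h2 : dia (ZMod q) (Hall.z W) = dia (ZMod q) (Hall.z W') := h1
    rw [Hall.z_inj (dia_inj q hq h2)]
    exact hW'
  · intro h
    exact ⟨W, h, rfl, rfl⟩

theorem exists_of_mem_scP {I : AddSubgroup (MonoidAlgebra ℤ D)} {x : PH q ℤ D}
    (hx : x ∈ scP q I) : ∃ W ∈ I, x = sW hD q W := by
  obtain ⟨W, hW, h1, h2⟩ := hx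
  refine ⟨W, hW, ?_⟩
  apply SemidirectProduct.ext
  · exact Subtype.ext h1
  · exact h2

theorem sW_conj (d : D) (W : MonoidAlgebra ℤ D) :
    (SemidirectProduct.inr d : PH q ℤ D) * sW hD q W * (SemidirectProduct.inr d)⁻¹ =
      sW hD q (MonoidAlgebra.of ℤ D d * W) := by
  unfold sW
  rw [← map_inv, ← SemidirectProduct.inl_aut]
  congr 1
  apply Subtype.ext
  have e2 : (((eaut (ZMod q) (Hall ℤ D)).comp Hall.act) d
      ⟨dia (ZMod q) (Hall.z W), hD q ℤ D W⟩ : (Matrix (Fin 3) (Fin 3) (AA q ℤ D))ˣ) =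
      umap (amap (ZMod q) (Hall.act d).toMonoidHom) (dia (ZMod q) (Hall.z W)) := rfl
  rw [e2, umap_dia]
  show dia (ZMod q) _ = dia (ZMod q) _
  congr 1
  exact Hall.act_z _ _

theorem sW_comm (x : E3 (AA q ℤ D)) (W : MonoidAlgebra ℤ D) :
    (SemidirectProduct.inl x : PH q ℤ D) * sW hD q W = sW hD q W * SemidirectProduct.inl x := by
  unfold sW
  rw [← map_mul, ← map_mul]
  congr 1
  apply Subtype.ext
  exact dia_comm (ZMod q) (fun y => Hall.z_comm _ y) _

end sW

theorem t_ENVR : S_ENVR := by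
  intro hTEL hHFG hDIA hSEP D L _ _ ρ w c hRF hFG hcl hρc hsep hcc hc0
  obtain ⟨q, hq, hT⟩ := hTEL (Hall ℤ D) (hHFG D hFG)
  have hq1 : 1 < q := hq.one_lt
  set e := ev ρ w with he
  have hsurj : Function.Surjective e := ev_surj ρ w hcl
  have hof : ∀ d x, e (MonoidAlgebra.of ℤ D d * x) = ρ d (e x) := ev_of ρ w
  set I : AddSubgroup (MonoidAlgebra ℤ D) := e.ker with hI
  set J : AddSubgroup (MonoidAlgebra ℤ D) := (pr c hcc).comap e with hJ
  have mI : ∀ x, x ∈ I ↔ e x = 0 := fun x => AddMonoidHom.mem_ker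
  have mJ : ∀ x, x ∈ J ↔ e x = 0 ∨ e x = c := fun x => Iff.rfl
  have hSI : Stab I := by
    intro d x hx
    rw [mI] at hx ⊢
    rw [hof, hx, map_zero]
  have hSJ : Stab J := by
    intro d x hx
    rw [mJ] at hx ⊢
    rw [hof]
    rcases hx with hx | hx
    · left; rw [hx, map_zero]
    · right; rw [hx, hρc]
  have nI : (scP q I).Normal := scP_normal q hSI
  have nJ : (scP q J).Normal := scP_normal q hSJ
  have hIJ : scP q I ≤ scP q J := by
    rintro x ⟨W, hW, h1, h2⟩
    exact ⟨W, (mJ W).2 (Or.inl ((mI W).1 hW)), h1, h2⟩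
  let mk : PH q ℤ D →* PH q ℤ D ⧸ scP q I := QuotientGroup.mk' (scP q I)
  have mks : Function.Surjective mk := QuotientGroup.mk'_surjective _
  have mk1 : ∀ x, mk x = 1 ↔ x ∈ scP q I := fun x => QuotientGroup.eq_one_iff x
  -- the section
  have mkW : ∀ W W' : MonoidAlgebra ℤ D, mk (sW hDIA q W) = mk (sW hDIA q W') ↔ e W = e W' := by
    intro W W'
    have h1 : mk (sW hDIA q W) = mk (sW hDIA q W') ↔ mk (sW hDIA q (W - W')) = 1 := by
      have h2 : sW hDIA q W = sW hDIA q (W - W') * sW hDIA q W' := by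
        rw [← sW_add, sub_add_cancel]
      rw [h2, map_mul]
      exact mul_eq_right
    rw [h1, mk1, mem_scP hDIA q hq1, mI, map_sub, sub_eq_zero]
  set s : L → PH q ℤ D ⧸ scP q I := fun l => mk (sW hDIA q (Function.surjInv hsurj l)) with hs
  have se : ∀ W, s (e W) = mk (sW hDIA q W) := fun W =>
    (mkW _ _).2 (Function.surjInv_eq hsurj (e W))
  set N : Subgroup (PH q ℤ D ⧸ scP q I) :=
    (SemidirectProduct.inl : E3 (AA q ℤ D) →* PH q ℤ D).range.map mk with hN
  have nN : N.Normal := by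
    rw [hN, SemidirectProduct.range_inl_eq_ker_rightHom]
    exact Subgroup.Normal.map inferInstance mk mks
  set Z : Subgroup (PH q ℤ D ⧸ scP q I) := (scP q J).map mk with hZ
  have nZ : Z.Normal := Subgroup.Normal.map nJ mk mks
  refine ⟨PH q ℤ D ⧸ scP q I, inferInstance, N, Z, nN, nZ, mk.comp SemidirectProduct.inr, s,
    ?_, ?_, ?_, ?_, ?_, ?_, ?_⟩
  · -- property (T)
    let g : E3 (AA q ℤ D) →* N :=
      (mk.comp SemidirectProduct.inl).codRestrict N fun x => ⟨_, ⟨x, rfl⟩, rfl⟩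
    refine hasT_of_surj g ?_ hT
    rintro ⟨_, _, ⟨x, rfl⟩, rfl⟩
    exact ⟨x, rfl⟩
  · intro a b hab
    obtain ⟨W, rfl⟩ := hsurj a
    obtain ⟨W', rfl⟩ := hsurj b
    rw [se, se, mkW] at hab
    exact hab
  · intro a b
    obtain ⟨W, rfl⟩ := hsurj a
    obtain ⟨W', rfl⟩ := hsurj b
    rw [← map_add, se, se, se, sW_add, map_mul]
  · intro l
    obtain ⟨W, rfl⟩ := hsurj l
    rw [se]
    refine ⟨⟨_, ⟨_, rfl⟩, rfl⟩, ?_⟩
    rintro _ ⟨_, ⟨x, rfl⟩, rfl⟩
    rw [← map_mul, ← map_mul, sW_comm]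
  · intro d l
    obtain ⟨W, rfl⟩ := hsurj l
    rw [← hof, se, se, ← sW_conj, map_mul, map_mul, map_inv]
    rfl
  · intro x
    constructor
    · rintro ⟨y, hy, rfl⟩
      obtain ⟨W, hW, rfl⟩ := exists_of_mem_scP hDIA q hy
      rcases (mJ W).1 hW with h | h
      · left
        exact (mk1 _).2 ((mem_scP hDIA q hq1 I W).2 ((mI W).2 h))
      · right
        rw [← h, se]
    · rintro (rfl | rfl)
      · exact Z.one_mem
      · obtain ⟨W, hW⟩ := hsurj c
        refine ⟨sW hDIA q W, (mem_scP hDIA q hq1 J W).2 ((mJ W).2 (Or.inr hW)), ?_⟩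
        rw [← hW, se]
  · -- residual finiteness
    intro x hx
    obtain ⟨y', rfl⟩ := QuotientGroup.mk'_surjective Z x
    obtain ⟨y, rfl⟩ := mks y'
    have hy : y ∉ scP q J := by
      intro h
      apply hx
      exact (QuotientGroup.eq_one_iff _).2 ⟨y, h, rfl⟩
    obtain ⟨Q, _, _, φ, hφ1, hφ⟩ := hSEP q D hq hRF J hSJ (by
      intro W hW
      rw [mJ, not_or] at hW
      obtain ⟨E, _, _, τ, f, hf1, hf2, hf3⟩ := hsep (e W) hW.1 hW.2
      refine ⟨E, inferInstance, inferInstance, τ, f.comp e, ?_, ?_, hf3⟩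
      · intro d x
        show f (e _) = τ d (f (e x))
        rw [hof, hf1]
      · intro x hx
        show f (e x) = 0
        rcases (mJ x).1 hx with h | h
        · rw [h, map_zero]
        · rw [h, hf2]) y hy
    let ψ : PH q ℤ D ⧸ scP q I →* Q := QuotientGroup.lift (scP q I) φ fun x hx => hφ1 x (hIJ hx)
    let χ : (PH q ℤ D ⧸ scP q I) ⧸ Z →* Q := QuotientGroup.lift Z ψ (by
      rintro _ ⟨x, hx, rfl⟩
      exact hφ1 x hx)
    exact ⟨Q, inferInstance, inferInstance, χ, hφ⟩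

end

end Pool.Agent.N221.CE
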